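import Pool.Agent.Helper11.UGU.Cubes
import Pool.Agent.Helper98.UGU.SecondU
import Pool.Agent.Helper98.UGU.SharedU
import Pool.Agent.Helper50.UGU.Cls

/-!
# UGU, block B: the prime cubes with constants independent of `W`, from the bound for tuples (U2)
-/

set_option autoImplicit false

namespace Pool.Agent.Helper11.UGU

open Finset MRP UGB

/-- (U5) the choice of a class with both bounds, from (U2) with `D = 0`, `m = 1`. -/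
theorem cls_of (H : ∀ D m : ℕ, ∃ C : ℝ, 0 < C ∧ ∀ W : ℕ, 0 < W → ∃ P₀ : ℕ, ∀ P : ℕ, P₀ ≤ P →
      ∀ r : ℕ, r.Coprime W → ∀ 𝒯 : Finset (Finset (Fin D)), 𝒯.card = m →
        ∑ v ∈ bx D (P / W), ((((Icc 1 (2 * P)).filter
          (fun n => n % W = r ∧ ∀ T ∈ 𝒯, (n + off W v T).Prime)).card : ℕ) : ℝ) ≤
          C * ((W : ℝ) / (Nat.totient W * Real.log P)) ^ m * ((P / W : ℕ) : ℝ) ^ (D + 1)) :
    ∃ c C : ℝ, 0 < c ∧ 0 < C ∧ ∀ W : ℕ, 0 < W → ∃ P₀ : ℕ, ∀ P : ℕ, P₀ ≤ P →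
      ∀ e : ℕ → ℝ, (∀ q, 0 ≤ e q) → ∀ δ : ℝ, 0 < δ → ∑ q ∈ dyP P, e q ≤ δ * (dyP P).card →
        ∃ r < W, r.Coprime W ∧
          c * ((W : ℝ) / (Nat.totient W * Real.log P)) * ((P / W : ℕ) : ℝ) ≤ ((AP P W r).card : ℝ) ∧
          ((AP P W r).card : ℝ) ≤ C * ((W : ℝ) / (Nat.totient W * Real.log P)) * ((P / W : ℕ) : ℝ) ∧
          ∑ q ∈ AP P W r, e q ≤ 2 * δ * (AP P W r).card := by
  classical
  obtain ⟨c, hc, hbig⟩ := class_big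
  obtain ⟨C, hC, H₀⟩ := H 0 1
  refine ⟨c, C, hc, hC, fun W hW => ?_⟩
  obtain ⟨P₁, h₁⟩ := H₀ W hW
  refine ⟨P₁ + W + 3, fun P hP e he δ hδ hsum => ?_⟩
  obtain ⟨r, hr, hcop, hcard, hmass⟩ := exists_classU W hW P (by omega) e he δ hδ hsum
  refine ⟨r, hr, hcop.symm, hbig W hW P (by omega) (by omega) _ hcard, ?_, hmass⟩
  have h1 := h₁ P (by omega) r hcop.symm {∅} (by simp)
  rw [pow_one, zero_add, pow_one] at h1
  refine le_trans ?_ h1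
  have hv : (fun i => Fin.elim0 i : Fin 0 → ℕ) ∈ bx 0 (P / W) := mem_bx.2 (fun i => i.elim0)
  refine le_trans ?_ (Finset.single_le_sum (f := fun v : Fin 0 → ℕ =>
    ((((Icc 1 (2 * P)).filter
      (fun n => n % W = r ∧ ∀ T ∈ ({∅} : Finset (Finset (Fin 0))), (n + off W v T).Prime)).card : ℕ) : ℝ))
    (fun v _ => by positivity) hv)
  have : AP P W r ⊆ ((Icc 1 (2 * P)).filter
      (fun n => n % W = r ∧ ∀ T ∈ ({∅} : Finset (Finset (Fin 0))),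
        (n + off W (fun i => Fin.elim0 i : Fin 0 → ℕ) T).Prime)) := by
    intro p hp
    have hpr := Finset.mem_filter.1 hp
    have hp' := Finset.mem_filter.1 hpr.1
    have hp1 := Finset.mem_Ioc.1 hp'.1
    refine Finset.mem_filter.2 ⟨Finset.mem_Icc.2 ⟨by omega, hp1.2⟩, hpr.2, ?_⟩
    intro T hT
    rw [Finset.mem_singleton.1 hT]
    simpa [off] using hp'.2
  exact_mod_cast Finset.card_le_card this

/-- Block B complete: the prime cubes from (U2). -/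
theorem hcubes_of (H : ∀ D m : ℕ, ∃ C : ℝ, 0 < C ∧ ∀ W : ℕ, 0 < W → ∃ P₀ : ℕ, ∀ P : ℕ, P₀ ≤ P →
      ∀ r : ℕ, r.Coprime W → ∀ 𝒯 : Finset (Finset (Fin D)), 𝒯.card = m →
        ∑ v ∈ bx D (P / W), ((((Icc 1 (2 * P)).filter
          (fun n => n % W = r ∧ ∀ T ∈ 𝒯, (n + off W v T).Prime)).card : ℕ) : ℝ) ≤
          C * ((W : ℝ) / (Nat.totient W * Real.log P)) ^ m * ((P / W : ℕ) : ℝ) ^ (D + 1)) (d : ℕ) :
    ∃ c C : ℝ, 0 < c ∧ 0 < C ∧ ∀ W : ℕ, 0 < W → ∃ P₀ : ℕ, ∀ P : ℕ, P₀ ≤ P →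
      ∀ e : ℕ → ℝ, (∀ q, 0 ≤ e q) → (∀ q, e q ≤ 1) → ∀ δ : ℝ, 0 < δ →
        ∑ q ∈ dyP P, e q ≤ δ * (dyP P).card →
          ∃ r < W, ∃ B ⊆ bx d (P / W), c * ((P / W : ℕ) : ℝ) ^ d ≤ (B.card : ℝ) ∧
            ∀ b ∈ B, ∃ p : ℕ, (∀ s : Finset (Fin d), p + off W b s ∈ AP P W r) ∧
              ∑ s : Finset (Fin d), e (p + off W b s) ≤ C * √δ :=
  cubes_of d (cls_of H) (_root_.UGU.secondU_of H d) (_root_.UGU.sharedU_of H d)

end Pool.Agent.Helper11.UGU
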