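import Pool.Agent.Helper11.UGU.AsmB
import Pool.Agent.Helper68.UGU.NoGap

/-!
# UGU: from the bound for tuples (U2) to the no-gap statement (U9a), uniform in the modulus
-/

set_option autoImplicit false

namespace Pool.Agent.Helper11.UGU

open Finset MRP UGB UGC UGD

theorem nogap_of_tuples (H : ∀ D m : ℕ, ∃ C : ℝ, 0 < C ∧ ∀ W : ℕ, 0 < W → ∃ P₀ : ℕ, ∀ P : ℕ, P₀ ≤ P →
      ∀ r : ℕ, r.Coprime W → ∀ 𝒯 : Finset (Finset (Fin D)), 𝒯.card = m →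
        ∑ v ∈ bx D (P / W), ((((Icc 1 (2 * P)).filter
          (fun n => n % W = r ∧ ∀ T ∈ 𝒯, (n + off W v T).Prime)).card : ℕ) : ℝ) ≤
          C * ((W : ℝ) / (Nat.totient W * Real.log P)) ^ m * ((P / W : ℕ) : ℝ) ^ (D + 1))
    (d : ℕ) (hd : 1 ≤ d) :
    ∃ δ₁ : ℝ, 0 < δ₁ ∧ ∀ q : ℕ, 0 < q →
    ∀ (h : Fin d → ℕ) (H : ℕ), (∀ i, h i < H) → ∃ P₀ : ℕ, ∀ P : ℕ, P₀ ≤ P → ∃ M₀ : ℕ, ∀ M : ℕ, M₀ ≤ M →
      ∀ (ρ : ℕ → ℕ) (τ : ℕ → ZMod 2), (∀ r, ρ r < q) →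
        δ₁ * (dyP P).card * ((M : ℝ) / q) < ∑ p ∈ dyP P, (((Icc 1 M).filter (fun n => n % q = ρ (p % q) ∧
          (∑ j, gg (n + p * h j)) + gg (n + p * H) ≠ τ (p % q))).card : ℝ) :=
  Pool.Agent.Helper68.UGU.nogap_of d (Pool.Agent.Helper68.UGU.core_of d hd (hcubes_of H d))

end Pool.Agent.Helper11.UGU
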