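import Pool.Agent.Helper98.UGU.GcsU
import Pool.Agent.Helper72.UGB.Sel

/-!
# UGU-7: the prime cubes with constants independent of `W`

Let `N = P / W`, `al = W / (φ W * log P)`, `S = bx d N` (`|S| = N ^ d`), `q₀ = al ^ (2 ^ d) * N`. From the choice of a class (U5), the second
moment (U3), the shared vertices (U4) and the cubes in one class (U6, `UGU.gcsU`), by `UGB.select` with `η = √δ`.
-/

set_option autoImplicit false

namespace Pool.Agent.Helper11.UGU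

open Finset MRP UGB

/-- For large `P` any power of `log P` is at most `κ * P`. -/
theorem log_pow_le' (m : ℕ) (κ : ℝ) (hκ : 0 < κ) : ∃ P₀ : ℕ, ∀ P : ℕ, P₀ ≤ P →
    (Real.log P) ^ m ≤ κ * P := by
  have h := (Real.isLittleO_pow_log_id_atTop (n := m)).bound hκ
  have h2 := (tendsto_natCast_atTop_atTop (R := ℝ)).eventually h
  obtain ⟨P₀, hP₀⟩ := Filter.eventually_atTop.1 h2
  refine ⟨P₀, fun P hP => ?_⟩
  have h3 := hP₀ P hP
  rw [Real.norm_eq_abs, id, Real.norm_eq_abs, abs_of_nonneg (Nat.cast_nonneg (α := ℝ) P)] at h3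
  exact (le_abs_self _).trans h3

/-- For fixed `s`, the sum over the cubes of the weight of the vertex `s`. -/
theorem sum_vertex' {d : ℕ} (A : Finset ℕ) (W : ℕ) (S : Finset (Fin d → ℕ)) (e : ℕ → ℝ)
    (s : Finset (Fin d)) :
    ∑ b ∈ S, ∑ p ∈ cub A W b, e (p + off W b s) =
      ∑ t ∈ A, e t * ((S.filter (fun b => ∃ p ∈ cub A W b, p + off W b s = t)).card : ℝ) := by
  classical
  have h1 : ∀ b ∈ S, ∑ p ∈ cub A W b, e (p + off W b s) =
      ∑ t ∈ A, if (∃ p ∈ cub A W b, p + off W b s = t) then e t else 0 := by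
    intro b _
    rw [← Finset.sum_filter]
    refine Finset.sum_nbij (fun p => p + off W b s) ?_ ?_ ?_ ?_
    · intro p hp
      refine Finset.mem_coe.2 (Finset.mem_filter.2 ⟨?_, p, hp, rfl⟩)
      exact (Finset.mem_filter.1 hp).2 s
    · intro p _ p' _ h
      exact Nat.add_right_cancel h
    · intro t ht
      obtain ⟨_, p, hp, hpt⟩ := Finset.mem_filter.1 (Finset.mem_coe.1 ht)
      exact ⟨p, hp, hpt⟩
    · intro p _
      rfl
  rw [Finset.sum_congr rfl h1, Finset.sum_comm]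
  refine Finset.sum_congr rfl (fun t _ => ?_)
  rw [← Finset.sum_filter, Finset.sum_const, nsmul_eq_mul, mul_comm]

theorem cubes_of (d : ℕ)
    (hcls : ∃ c C : ℝ, 0 < c ∧ 0 < C ∧ ∀ W : ℕ, 0 < W → ∃ P₀ : ℕ, ∀ P : ℕ, P₀ ≤ P →
      ∀ e : ℕ → ℝ, (∀ q, 0 ≤ e q) → ∀ δ : ℝ, 0 < δ → ∑ q ∈ dyP P, e q ≤ δ * (dyP P).card →
        ∃ r < W, r.Coprime W ∧
          c * ((W : ℝ) / (Nat.totient W * Real.log P)) * ((P / W : ℕ) : ℝ) ≤ ((AP P W r).card : ℝ) ∧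
          ((AP P W r).card : ℝ) ≤ C * ((W : ℝ) / (Nat.totient W * Real.log P)) * ((P / W : ℕ) : ℝ) ∧
          ∑ q ∈ AP P W r, e q ≤ 2 * δ * (AP P W r).card)
    (hsecond : ∃ C : ℝ, 0 < C ∧ ∀ W : ℕ, 0 < W → ∃ P₀ : ℕ, ∀ P : ℕ, P₀ ≤ P →
      ∀ r : ℕ, r.Coprime W → ∑ b ∈ bx d (P / W), ((cub (AP P W r) W b).card : ℝ) ^ 2 ≤
        C * ((W : ℝ) / (Nat.totient W * Real.log P)) ^ (2 ^ (d + 1)) * ((P / W : ℕ) : ℝ) ^ (d + 2))
    (hshared : ∃ C : ℝ, 0 < C ∧ ∀ W : ℕ, 0 < W → ∃ P₀ : ℕ, ∀ P : ℕ, P₀ ≤ P →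
      ∀ r : ℕ, r.Coprime W → ∀ s₀ : Finset (Fin d),
      ∑ t ∈ AP P W r, (((bx d (P / W)).filter
        (fun b => ∃ p ∈ cub (AP P W r) W b, p + off W b s₀ = t)).card : ℝ) ^ 2 ≤
        C * ((W : ℝ) / (Nat.totient W * Real.log P)) ^ (2 ^ (d + 1) - 1) *
          ((P / W : ℕ) : ℝ) ^ (2 * d + 1)) :
    ∃ c C : ℝ, 0 < c ∧ 0 < C ∧ ∀ W : ℕ, 0 < W → ∃ P₀ : ℕ, ∀ P : ℕ, P₀ ≤ P →
      ∀ e : ℕ → ℝ, (∀ q, 0 ≤ e q) → (∀ q, e q ≤ 1) → ∀ δ : ℝ, 0 < δ →
        ∑ q ∈ dyP P, e q ≤ δ * (dyP P).card →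
          ∃ r < W, ∃ B ⊆ bx d (P / W), c * ((P / W : ℕ) : ℝ) ^ d ≤ (B.card : ℝ) ∧
            ∀ b ∈ B, ∃ p : ℕ, (∀ s : Finset (Fin d), p + off W b s ∈ AP P W r) ∧
              ∑ s : Finset (Fin d), e (p + off W b s) ≤ C * √δ := by
  classical
  obtain ⟨c₀, C₀, hc₀, hC₀, hclsW⟩ := hcls
  obtain ⟨cg, Cg, hcg, hCg, hgcs⟩ := _root_.UGU.gcsU d
  obtain ⟨Cs, hCs, hsecW⟩ := hsecond
  obtain ⟨Ch, hCh, hshW⟩ := hshared
  set M : ℕ := 2 ^ d with hM
  set c' : ℝ := cg * c₀ ^ M with hc'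
  have hc'pos : 0 < c' := by positivity
  set c₁ : ℝ := c' / 2 with hc₁
  have hc₁pos : 0 < c₁ := by positivity
  set C₂ : ℝ := 2 ^ d * √(2 * C₀ * Ch) with hC₂
  have hC₂pos : 0 < C₂ := by positivity
  refine ⟨c₁ ^ 2 / (8 * Cs), 16 * Cs * C₂ / c₁ ^ 3, by positivity, by positivity, ?_⟩
  intro W hW
  have hWR : (0 : ℝ) < W := by exact_mod_cast hW
  obtain ⟨P₁, hcl⟩ := hclsW W hW
  obtain ⟨P₂, hsec⟩ := hsecW W hW
  obtain ⟨P₃, hsh⟩ := hshW W hW
  obtain ⟨P₄, hlog⟩ := log_pow_le' M (c' / (2 * Cg) / (2 * W)) (by positivity)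
  refine ⟨P₁ + P₂ + P₃ + P₄ + W + 3, ?_⟩
  intro P hP e he0 he1 δ hδ hsum
  have hP3 : 3 ≤ P := by omega
  have hPR : (3 : ℝ) ≤ P := by exact_mod_cast hP3
  have hPpos : (0 : ℝ) < P := by linarith
  have hl : 0 < Real.log P := Real.log_pos (by linarith)
  set l : ℝ := Real.log P with hldef
  have hPW : W ≤ P := by omega
  obtain ⟨r, hr, hrW, ha_low, ha_up, hA⟩ := hcl P (by omega) e he0 δ hδ hsum
  have hsec' := hsec P (by omega) r hrW
  have hsh' := hsh P (by omega) r hrW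
  have hgP := hgcs W hW P hPW r
  have htot : (0 : ℝ) < (Nat.totient W : ℝ) := by exact_mod_cast Nat.totient_pos.2 hW
  have htotle : (Nat.totient W : ℝ) ≤ W := by exact_mod_cast Nat.totient_le W
  set al : ℝ := (W : ℝ) / (Nat.totient W * l) with hal
  have halpos : 0 < al := by positivity
  have halge : 1 / l ≤ al := by
    rw [hal, div_le_div_iff₀ hl (by positivity)]
    nlinarith
  set N : ℕ := P / W with hN
  have hN1 : 1 ≤ N := (Nat.one_le_div_iff hW).2 hPW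
  have hNpos : (0 : ℝ) < N := by exact_mod_cast hN1
  have hP2WN : (P : ℝ) ≤ 2 * W * N := by
    have h1 : P < W * (N + 1) := by
      have := Nat.lt_div_mul_add hW (a := P)
      rw [← hN] at this
      calc P < N * W + W := this
        _ = W * (N + 1) := by ring
    have h2 : W * (N + 1) ≤ 2 * W * N := by nlinarith
    exact_mod_cast (h1.le.trans h2)
  set S : Finset (Fin d → ℕ) := bx d N with hS
  have hScard : (S.card : ℝ) = (N : ℝ) ^ d := by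
    rw [hS, card_bx]; push_cast; ring
  refine ⟨r, hr, ?_⟩
  set A : Finset ℕ := AP P W r with hAdef
  set a : ℝ := (A.card : ℝ) with ha
  have ha0 : 0 ≤ a := Nat.cast_nonneg _
  have hAdy : A ⊆ dyP P := Finset.filter_subset _ _
  set q₀ : ℝ := al ^ M * N with hq₀
  have hq₀pos : 0 < q₀ := by positivity
  -- (2)
  have h2 : c₁ * q₀ * S.card ≤ ∑ b ∈ S, ((cub A W b).card : ℝ) := by
    have hg := hgP A (fun q hq => (Finset.mem_filter.1 (hAdy hq)).1)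
      (fun q hq => (Finset.mem_filter.1 hq).2)
    have e1 : (c₀ * al * N) ^ M ≤ a ^ M := by gcongr
    have e2 : cg * (c₀ * al * N) ^ M * (N : ℝ) ^ (d + 1) ≤
        ((∑ b ∈ S, ((cub A W b).card : ℝ)) + Cg * (N : ℝ) ^ d) * (N : ℝ) ^ M := by
      refine le_trans ?_ hg
      gcongr
    have e3 : cg * (c₀ * al * N) ^ M * (N : ℝ) ^ (d + 1) =
        (c' * (q₀ * (N : ℝ) ^ d)) * (N : ℝ) ^ M := by
      rw [hc', hq₀, mul_pow, mul_pow]
      ring
    rw [e3] at e2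
    have e4 := le_of_mul_le_mul_right e2 (by positivity : (0 : ℝ) < (N : ℝ) ^ M)
    have e5 : Cg * (N : ℝ) ^ d ≤ c' / 2 * (q₀ * (N : ℝ) ^ d) := by
      have hl1 := hlog P (by omega)
      have hlM : 0 < l ^ M := by positivity
      have k1 : l ^ M ≤ c' / (2 * Cg) * N := by
        refine hl1.trans ?_
        calc c' / (2 * Cg) / (2 * W) * P ≤ c' / (2 * Cg) / (2 * W) * (2 * W * N) := by gcongr
          _ = c' / (2 * Cg) * N := by field_simp
      have k2 : 1 ≤ al ^ M * l ^ M := by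
        rw [← mul_pow]
        have : 1 ≤ al * l := by
          calc (1 : ℝ) = 1 / l * l := by field_simp
            _ ≤ al * l := by gcongr
        exact one_le_pow₀ this
      have k3 : Cg ≤ c' / 2 * q₀ := by
        calc Cg = Cg * 1 := by ring
          _ ≤ Cg * (al ^ M * l ^ M) := by gcongr
          _ ≤ Cg * (al ^ M * (c' / (2 * Cg) * N)) := by gcongr
          _ = c' / 2 * q₀ := by rw [hq₀]; field_simp
      calc Cg * (N : ℝ) ^ d ≤ (c' / 2 * q₀) * (N : ℝ) ^ d := by gcongr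
        _ = _ := by ring
    calc c₁ * q₀ * S.card = c' * (q₀ * (N : ℝ) ^ d) - c' / 2 * (q₀ * (N : ℝ) ^ d) := by
          rw [hc₁, hScard]; ring
      _ ≤ ∑ b ∈ S, ((cub A W b).card : ℝ) := by linarith
  -- (3)
  have hM2 : 2 ^ (d + 1) = 2 * M := by rw [hM]; ring
  have h3 : ∑ b ∈ S, ((cub A W b).card : ℝ) ^ 2 ≤ Cs * q₀ ^ 2 * S.card := by
    refine hsec'.trans (le_of_eq ?_)
    rw [hM2, hq₀, hScard, mul_pow, ← pow_mul, mul_comm M 2]
    ring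
  -- (4)
  set F : (Fin d → ℕ) → ℝ := fun b => ∑ p ∈ cub A W b, ∑ s : Finset (Fin d), e (p + off W b s)
    with hF
  have hM1 : 1 ≤ M := Nat.one_le_two_pow
  have h4s : ∀ s : Finset (Fin d), ∑ b ∈ S, ∑ p ∈ cub A W b, e (p + off W b s) ≤
      √(2 * C₀ * Ch) * √δ * (q₀ * (N : ℝ) ^ d) := by
    intro s
    rw [sum_vertex']
    set R : ℕ → ℝ := fun t =>
      ((S.filter (fun b => ∃ p ∈ cub A W b, p + off W b s = t)).card : ℝ) with hR
    have hcs : (∑ t ∈ A, e t * R t) ^ 2 ≤ (∑ t ∈ A, e t ^ 2) * ∑ t ∈ A, R t ^ 2 :=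
      Finset.sum_mul_sq_le_sq_mul_sq A e R
    have he2 : ∑ t ∈ A, e t ^ 2 ≤ 2 * δ * (C₀ * al * N) := by
      calc ∑ t ∈ A, e t ^ 2 ≤ ∑ t ∈ A, e t := by
            refine Finset.sum_le_sum (fun t _ => ?_)
            have := he0 t
            have := he1 t
            nlinarith
        _ ≤ 2 * δ * a := hA
        _ ≤ 2 * δ * (C₀ * al * N) := by gcongr
    have hR2 : ∑ t ∈ A, R t ^ 2 ≤ Ch * al ^ (2 ^ (d + 1) - 1) * (N : ℝ) ^ (2 * d + 1) :=
      hsh' s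
    have hprod : (∑ t ∈ A, e t * R t) ^ 2 ≤
        (√(2 * C₀ * Ch) * √δ * (q₀ * (N : ℝ) ^ d)) ^ 2 := by
      refine hcs.trans ?_
      have e1 : (√(2 * C₀ * Ch) * √δ * (q₀ * (N : ℝ) ^ d)) ^ 2 =
          (2 * C₀ * Ch) * δ * (q₀ * (N : ℝ) ^ d) ^ 2 := by
        rw [mul_pow, mul_pow, Real.sq_sqrt (by positivity), Real.sq_sqrt hδ.le]
      rw [e1]
      have hk : 2 ^ (d + 1) - 1 + 1 = 2 * M := by rw [hM2]; omega
      have e2 : (2 * C₀ * Ch) * δ * (q₀ * (N : ℝ) ^ d) ^ 2 =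
          (2 * δ * (C₀ * al * N)) * (Ch * al ^ (2 ^ (d + 1) - 1) * (N : ℝ) ^ (2 * d + 1)) := by
        have e3 : al ^ (2 * M) = al * al ^ (2 ^ (d + 1) - 1) := by
          have h5 := pow_succ' al (2 ^ (d + 1) - 1)
          rw [hk] at h5
          exact h5
        have e4 : (al ^ M) ^ 2 = al ^ (2 * M) := by rw [← pow_mul, mul_comm]
        rw [hq₀]
        calc (2 * C₀ * Ch) * δ * (al ^ M * N * (N : ℝ) ^ d) ^ 2 =
            (2 * C₀ * Ch) * δ * ((al ^ M) ^ 2 * (N ^ 2 * ((N : ℝ) ^ d) ^ 2)) := by ring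
          _ = (2 * C₀ * Ch) * δ * ((al * al ^ (2 ^ (d + 1) - 1)) * (N ^ 2 * ((N : ℝ) ^ d) ^ 2)) := by
            rw [e4, e3]
          _ = _ := by ring
      rw [e2]
      have hn1 : 0 ≤ ∑ t ∈ A, R t ^ 2 := Finset.sum_nonneg (fun t _ => sq_nonneg _)
      have hn2 : 0 ≤ 2 * δ * (C₀ * al * N) := by positivity
      exact mul_le_mul he2 hR2 hn1 hn2
    have hn3 : 0 ≤ √(2 * C₀ * Ch) * √δ * (q₀ * (N : ℝ) ^ d) := by positivity
    exact le_of_sq_le_sq hprod hn3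
  have h4 : ∑ b ∈ S, F b ≤ C₂ * √δ * q₀ * S.card := by
    have e1 : ∑ b ∈ S, F b = ∑ s : Finset (Fin d), ∑ b ∈ S, ∑ p ∈ cub A W b,
        e (p + off W b s) := by
      rw [Finset.sum_comm]
      refine Finset.sum_congr rfl (fun b _ => ?_)
      rw [hF, Finset.sum_comm]
    rw [e1]
    calc ∑ s : Finset (Fin d), ∑ b ∈ S, ∑ p ∈ cub A W b, e (p + off W b s) ≤
          ∑ _s : Finset (Fin d), √(2 * C₀ * Ch) * √δ * (q₀ * (N : ℝ) ^ d) :=
          Finset.sum_le_sum (fun s _ => h4s s)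
      _ = 2 ^ d * (√(2 * C₀ * Ch) * √δ * (q₀ * (N : ℝ) ^ d)) := by
          rw [Finset.sum_const, nsmul_eq_mul, Finset.card_univ, Fintype.card_finset,
            Fintype.card_fin]
          push_cast
          ring
      _ = C₂ * √δ * q₀ * S.card := by rw [hC₂, hScard]; ring
  -- (5)
  have hFn : ∀ b ∈ S, 0 ≤ F b := fun b _ =>
    Finset.sum_nonneg (fun p _ => Finset.sum_nonneg (fun s _ => he0 _))
  obtain ⟨B, hBS, hBc, hB⟩ := select S (fun b => ((cub A W b).card : ℝ)) F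
    (fun b _ => Nat.cast_nonneg _) hFn q₀ c₁ Cs C₂ (√δ) hq₀pos hc₁pos hCs hC₂pos
    (Real.sqrt_pos.2 hδ) h2 h3 h4
  refine ⟨B, hBS, ?_, ?_⟩
  · rw [← hScard]
    exact hBc
  · intro b hb
    obtain ⟨hQpos, hFb⟩ := hB b hb
    have hQne : (cub A W b).Nonempty := by
      rw [← Finset.card_pos]; exact_mod_cast hQpos
    set K : ℝ := 16 * Cs * C₂ / c₁ ^ 3 * √δ with hK
    have hle : ∑ p ∈ cub A W b, ∑ s : Finset (Fin d), e (p + off W b s) ≤
        ∑ _p ∈ cub A W b, K := by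
      rw [Finset.sum_const, nsmul_eq_mul]
      calc ∑ p ∈ cub A W b, ∑ s : Finset (Fin d), e (p + off W b s) = F b := rfl
        _ ≤ 16 * Cs * C₂ / c₁ ^ 3 * √δ * (cub A W b).card := hFb
        _ = (cub A W b).card * K := by rw [hK]; ring
    obtain ⟨p, hp, hpK⟩ := Finset.exists_le_of_sum_le hQne hle
    exact ⟨p, (Finset.mem_filter.1 hp).2, hpK⟩

end Pool.Agent.Helper11.UGU
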